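import Pool.Agent.Helper30.PG.Fin

/-!
# The number of closest returns
-/

set_option autoImplicit false
open Set Filter Topology Metric

namespace Pool.Agent.Helper30.PG

open Pool.Agent.W746.LD Pool.Agent.T2H09.DH Pool.Agent.T2H09.LU Pool.Agent.T2H09.LV
  Pool.Agent.T2H09.LW N62a1eb23

/-- The depth of the returns is at most linear in the time. -/
lemma kk_le {n : ℕ} (hn : 2 ≤ n) {c : ℂ} (hc : c ∈ multibrotSet n) {M : ℕ}
    (h0 : ∀ j < M, orb n c c j ≠ 0) (hP1 : 1 ≤ ‖P n c c M‖) {j : ℕ} (hj1 : 1 ≤ j) (hjM : j ≤ M) :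
    5 + kk n c j ≤ (5 + 6 * Real.log (2 * n)) * M := by
  have hn2 : (2 : ℝ) ≤ n := by exact_mod_cast hn
  have hM1 : (1 : ℝ) ≤ M := by exact_mod_cast (hj1.trans hjM)
  obtain ⟨i, rfl⟩ : ∃ i, j = i + 1 := ⟨j - 1, by omega⟩
  have h1 := bb_succ hn h0 (by omega : i < M)
  have hln : 0 ≤ Real.log n := Real.log_nonneg (by linarith)
  have hl2 : Real.log n ≤ Real.log (2 * n) := Real.log_le_log (by linarith) (by linarith)
  have h2 : aa n c i ≤ M * Real.log (2 * n) := by
    unfold aa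
    have hPi : 0 < ‖P n c c i‖ := norm_pos_iff.mpr (P_ne hn h0 (by omega))
    have h3 := Real.log_le_log hPi (P_le hn hc i)
    rw [Real.log_pow] at h3
    have h4 : (i : ℝ) ≤ M := by exact_mod_cast (by omega : i ≤ M)
    have h5 : (i : ℝ) * Real.log (2 * n) ≤ M * Real.log (2 * n) :=
      mul_le_mul_of_nonneg_right h4 (by linarith)
    linarith
  have h3 : -(M * Real.log (2 * n)) ≤ aa n c (i + 1) := by
    unfold aa
    have hPi : 0 < ‖P n c c (i + 1)‖ := norm_pos_iff.mpr (P_ne hn h0 hjM)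
    have hPi' : 0 < ‖(P n c c (i + 1))⁻¹‖ := by rw [norm_inv]; exact inv_pos.mpr hPi
    have h4 := Real.log_le_log hPi' (inv_le hn hc hP1 hjM)
    rw [Real.log_pow, norm_inv, Real.log_inv] at h4
    linarith
  rcases le_or_gt (kk n c (i + 1)) 0 with hk | hk
  · nlinarith [mul_nonneg (by linarith : (0:ℝ) ≤ Real.log (2 * n)) (by linarith : (0:ℝ) ≤ M)]
  have h4 : kk n c (i + 1) / n ≤ kk n c (i + 1) / 2 := by
    apply div_le_div_of_nonneg_left hk.le (by norm_num) hn2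
  have h5 : Real.log (2 * n) ≤ M * Real.log (2 * n) :=
    le_mul_of_one_le_left (by linarith) hM1
  nlinarith

/-- The closest returns. -/
def CR (n : ℕ) (c : ℂ) (j : ℕ) : Prop :=
  1 ≤ j ∧ ∀ i, 1 ≤ i → i < j → ‖orb n c c j - c‖ < ‖orb n c c i - c‖

open Classical in
/-- The number of the closest returns before the time `N`. -/
noncomputable def cnt (n : ℕ) (c : ℂ) (N : ℕ) : ℕ := Nat.count (CR n c) N

open Classical in
theorem cnt_near {n : ℕ} (hn : 2 ≤ n) : ∃ A C : ℝ, 0 < A ∧ 1 ≤ C ∧ ∀ c ∈ multibrotSet n,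
    ∀ N : ℕ, 2 ≤ N →
      Near n (N + 2) c (C * (N : ℝ) ^ A * ‖P n c c N‖ ^ (-(1 / ((cnt n c N : ℝ) + 1)))) := by
  obtain ⟨A, C, hA, hC, hall⟩ := all hn
  have hn2 : (2 : ℝ) ≤ n := by exact_mod_cast hn
  have hln : 0 ≤ Real.log (2 * n) := Real.log_nonneg (by linarith)
  obtain ⟨B, hB⟩ : ∃ B, B = 5 + 6 * Real.log (2 * n) := ⟨_, rfl⟩
  have hB1 : 2 ≤ B := by rw [hB]; linarith
  refine ⟨A + 1, B * C, by linarith, by nlinarith, ?_⟩
  intro c hc N hN
  obtain ⟨h1, h2⟩ := hall c hc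
  have hN2 : (2 : ℝ) ≤ N := by exact_mod_cast hN
  have hN0 : (0 : ℝ) < N := by linarith
  have hNA : 0 < (N : ℝ) ^ A := Real.rpow_pos_of_pos hN0 A
  have hNA1 : 1 ≤ (N : ℝ) ^ A := Real.one_le_rpow (by linarith) hA.le
  have hNA' : (N : ℝ) ^ (A + 1) = (N : ℝ) ^ A * N := by
    rw [Real.rpow_add hN0, Real.rpow_one]
  by_cases h0 : ∀ j < N, orb n c c j ≠ 0
  swap
  · push Not at h0
    obtain ⟨j, hj, h1⟩ := h0
    exact near_of_zero hn hj h1 (by positivity)
  have hP : 0 < ‖P n c c N‖ := norm_pos_iff.mpr (P_ne hn h0 le_rfl)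
  obtain ⟨k, hk⟩ : ∃ k, k = cnt n c N := ⟨_, rfl⟩
  rw [← hk]
  obtain ⟨b, hb⟩ : ∃ b, b = ‖P n c c N‖ ^ (-(1 / ((k : ℝ) + 1))) := ⟨_, rfl⟩
  rw [← hb]
  have hb0 : 0 < b := by rw [hb]; exact Real.rpow_pos_of_pos hP _
  have hbk : b ^ (k + 1) * ‖P n c c N‖ = 1 := by
    rw [hb, ← Real.rpow_natCast, ← Real.rpow_mul hP.le]
    push_cast
    rw [neg_mul, one_div, inv_mul_cancel₀ (by positivity), Real.rpow_neg_one,
      inv_mul_cancel₀ hP.ne']
  obtain ⟨s, hs⟩ : ∃ s, s = B * C * (N : ℝ) ^ (A + 1) * b := ⟨_, rfl⟩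
  rw [← hs]
  rcases le_or_gt 2 s with h3 | h3
  · exact near_zero hn hc (by omega) h3
  by_contra hcon
  -- consequences of `s < 2`
  have hsb : B * C * ((N : ℝ) ^ A * N) * b < 2 := by rw [← hNA', ← hs]; exact h3
  have hbN : (N : ℝ) ^ A * b ≤ 1 := by
    have h4 : 2 * 1 * ((N : ℝ) ^ A * 1) * b ≤ B * C * ((N : ℝ) ^ A * N) * b := by
      gcongr
      linarith
    linarith
  have hb1 : b ≤ 1 := by
    calc b = 1 * b := (one_mul b).symm
      _ ≤ (N : ℝ) ^ A * b := by gcongr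
      _ ≤ 1 := hbN
  have hP1 : 1 ≤ ‖P n c c N‖ := by
    have h4 : b ^ (k + 1) ≤ 1 := pow_le_one₀ hb0.le hb1
    by_contra hlt
    push Not at hlt
    have h5 : b ^ (k + 1) * ‖P n c c N‖ < 1 * 1 := by
      apply mul_lt_mul' h4 hlt hP.le one_pos
    linarith
  have hmonoc : ∀ j ≤ N, cnt n c j ≤ k := by
    intro j hj
    rw [hk]
    exact Nat.count_monotone _ hj
  have hbpos : ∀ m, 0 < b ^ m := fun m => pow_pos hb0 m
  have hble : ∀ m, b ^ m ≤ 1 := fun m => pow_le_one₀ hb0.le hb1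
  -- the expansion at the time `N` in comparison with the returns
  have hgood : ∀ m ≤ k, (N : ℝ) ^ A ≤ b ^ m * ‖P n c c N‖ := by
    intro m hm
    have h4 : b ^ k ≤ b ^ m := pow_le_pow_of_le_one hb0.le hb1 hm
    have h5 : (N : ℝ) ^ A ≤ b ^ k * ‖P n c c N‖ := by
      have h6 : b * (b ^ k * ‖P n c c N‖) = 1 := by rw [← hbk, pow_succ]; ring
      have h7 : (N : ℝ) ^ A * b ≤ b * (b ^ k * ‖P n c c N‖) := by rw [h6]; exact hbN
      have h8 : (N : ℝ) ^ A * b ≤ (b ^ k * ‖P n c c N‖) * b := by linarith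
      exact le_of_mul_le_mul_right h8 hb0
    exact h5.trans (by gcongr)
  have claim : ∀ j, 1 ≤ j → j ≤ N → ∀ i, 1 ≤ i → i < j → b ^ cnt n c j ≤ ‖orb n c c i - c‖ := by
    intro j hj1
    induction j, hj1 using Nat.le_induction with
    | base => intro _ i hi1 hi2; omega
    | succ j hj1 ih =>
      intro hjN i hi1 hi2
      have ih' := ih (by omega)
      have hcs : cnt n c (j + 1) = cnt n c j + if CR n c j then 1 else 0 := by
        unfold cnt
        rw [Nat.count_succ]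
      have hle : b ^ cnt n c (j + 1) ≤ b ^ cnt n c j := by
        apply pow_le_pow_of_le_one hb0.le hb1
        omega
      rcases (by omega : i < j ∨ i = j) with h | rfl
      · exact hle.trans (ih' i hi1 h)
      by_cases hcr : CR n c i
      · rw [if_pos hcr] at hcs
        have h4 := h2 N hN i hi1 (by omega) (b ^ cnt n c i) (hbpos _) (hble _) ih'
          (hgood _ (hmonoc i (by omega)))
        by_contra hlt
        push Not at hlt
        apply hcon
        refine h4.mono le_rfl ?_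
        have hρ := rho0 h0 hi1 (by omega : i ≤ N)
        have hkl := kk_le hn hc h0 hP1 hi1 (by omega : i ≤ N)
        have e : 5 - Real.log ‖orb n c c i - c‖ = 5 + kk n c i := by unfold kk; ring
        rw [e, ← hB] at *
        have hkge := kk_ge hn hc h0 hi1 (by omega : i ≤ N)
        rw [hcs, pow_succ] at hlt
        have h5 : ‖orb n c c i - c‖ * (5 + kk n c i) ≤ (b ^ cnt n c i * b) * (B * N) := by
          apply mul_le_mul hlt.le hkl (by linarith) (by positivity)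
        calc C * (N : ℝ) ^ A / b ^ cnt n c i * (‖orb n c c i - c‖ * (5 + kk n c i))
            ≤ C * (N : ℝ) ^ A / b ^ cnt n c i * ((b ^ cnt n c i * b) * (B * N)) := by gcongr
          _ = B * C * ((N : ℝ) ^ A * N) * b := by
            have := (hbpos (cnt n c i)).ne'
            field_simp
          _ = s := by rw [hs, hNA']
      · have h4 : ∃ l, 1 ≤ l ∧ l < i ∧ ‖orb n c c l - c‖ ≤ ‖orb n c c i - c‖ := by
          by_contra hno
          push Not at hno
          exact hcr ⟨hi1, fun l hl1 hl2 => hno l hl1 hl2⟩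
        obtain ⟨l, hl1, hl2, hl3⟩ := h4
        exact hle.trans ((ih' l hl1 hl2).trans hl3)
  have h4 := claim N (by omega) le_rfl
  rw [← hk] at h4
  obtain ⟨h5, -, -⟩ := h1 N hN (b ^ k) (hbpos _) (hble _) h4
  apply hcon
  refine h5.mono le_rfl ?_
  have h6 : b ^ k * ‖P n c c N‖ = 1 / b := by
    rw [eq_div_iff hb0.ne', ← hbk, pow_succ]
    ring
  rw [h6, hs, hNA', div_div_eq_mul_div, div_one]
  calc C * (N : ℝ) ^ A * b = 1 * C * ((N : ℝ) ^ A * 1) * b := by ring
    _ ≤ B * C * ((N : ℝ) ^ A * N) * b := by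
      gcongr
      · linarith
      · linarith

end Pool.Agent.Helper30.PG
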