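import Pool.Agent.Helper30.PG.Core

/-!
# Nearby attracting cycles: one derivative, and close returns
-/

set_option autoImplicit false
open Set Filter Topology Metric

namespace Pool.Agent.Helper30.PG

open Pool.Agent.W746.LD Pool.Agent.T2H09.DH Pool.Agent.T2H09.LU Pool.Agent.T2H09.LV
  Pool.Agent.T2H09.LW N62a1eb23

lemma near_zero {n : ℕ} (hn : 2 ≤ n) {c : ℂ} (hc : c ∈ multibrotSet n) {N : ℕ} (hN : 1 ≤ N)
    {s : ℝ} (hs : 2 ≤ s) : Near n N c s := by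
  refine ⟨0, ?_, 1, hN, 0, ?_⟩
  · rw [zero_sub, norm_neg]
    exact (norm_le_two hn hc).trans hs
  · apply Pool.Agent.H548R3.MB.att_of_centre hn le_rfl
    simp only [Function.iterate_one, add_zero]
    exact zero_pow (by omega)

lemma not_near {n N : ℕ} {c : ℂ} {s r : ℝ} (hrs : r ≤ s) (h : ¬ Near n N c s) :
    ∀ t ∈ ball c r, ∀ p ≤ N, ∀ z, ¬ IsAttractingCycle (fun z => z ^ n + t) p z := by
  intro t ht p hp z hz
  apply h
  rw [mem_ball, dist_eq_norm] at ht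
  exact ⟨t, ht.le.trans hrs, p, hp, z, hz⟩

/-- One derivative. -/
theorem grow {n : ℕ} (hn : 2 ≤ n) {A C : ℝ} (hA : 0 < A) (hC : 1 ≤ C)
    (hcore : ∀ c ∈ multibrotSet n,
      ∀ M : ℕ, 2 ≤ M → ∀ J, 1 ≤ J → J ≤ M → ∀ κ : ℝ, 0 < κ → κ ≤ 1 →
      (∀ j, 1 ≤ j → j < J → κ ≤ ‖orb n c c j - c‖) → (M : ℝ) ^ A ≤ κ * ‖P n c c M‖ →
      ∀ r : ℝ, 0 < r → r ≤ 1 →
      (∀ t ∈ ball c r, ∀ p ≤ M + 2, ∀ z, ¬ IsAttractingCycle (fun z => z ^ n + t) p z) →
      ‖P n c c J‖ * (κ * r) ≤ C * (M : ℝ) ^ A ∧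
      ‖P n c c J‖ * (κ * r) ≤ C * (M : ℝ) ^ A *
        (‖orb n c c J - c‖ * (5 - Real.log ‖orb n c c J - c‖)))
    {c : ℂ} (hc : c ∈ multibrotSet n) {N : ℕ} (hN : 2 ≤ N) {κ : ℝ} (hκ0 : 0 < κ) (hκ1 : κ ≤ 1)
    (hret : ∀ j, 1 ≤ j → j < N → κ ≤ ‖orb n c c j - c‖) :
    Near n (N + 2) c (4 * C * (N : ℝ) ^ A / (κ * ‖P n c c N‖)) := by
  have hN2 : (2 : ℝ) ≤ N := by exact_mod_cast hN
  have hN0 : (0 : ℝ) < N := by linarith
  have hNA : 0 < (N : ℝ) ^ A := Real.rpow_pos_of_pos hN0 A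
  by_cases h0 : ∀ j < N, orb n c c j ≠ 0
  swap
  · push Not at h0
    obtain ⟨j, hj, h1⟩ := h0
    exact near_of_zero hn hj h1 (by positivity)
  have hP : 0 < ‖P n c c N‖ := norm_pos_iff.mpr (P_ne hn h0 le_rfl)
  set p := ‖P n c c N‖ with hp
  obtain ⟨s, hs⟩ : ∃ s, s = 4 * C * (N : ℝ) ^ A / (κ * p) := ⟨_, rfl⟩
  rw [← hs]
  have hs0 : 0 < s := by rw [hs]; positivity
  have hsp : s * (κ * p) = 4 * C * (N : ℝ) ^ A := by rw [hs]; field_simp
  rcases le_or_gt 2 s with h2 | h2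
  · exact near_zero hn hc (by omega) h2
  by_contra hcon
  have hbig : (N : ℝ) ^ A ≤ κ * p := by
    have hκp : 0 < κ * p := by positivity
    nlinarith
  obtain ⟨h3, -⟩ := hcore c hc N hN N (by omega) le_rfl κ hκ0 hκ1 hret hbig (s / 2) (by positivity)
    (by linarith) (not_near (by linarith) hcon)
  nlinarith

/-- Close returns before a time of expansion. -/
theorem late {n : ℕ} (hn : 2 ≤ n) {A C : ℝ} (hA : 0 < A) (hC : 1 ≤ C)
    (hcore : ∀ c ∈ multibrotSet n,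
      ∀ M : ℕ, 2 ≤ M → ∀ J, 1 ≤ J → J ≤ M → ∀ κ : ℝ, 0 < κ → κ ≤ 1 →
      (∀ j, 1 ≤ j → j < J → κ ≤ ‖orb n c c j - c‖) → (M : ℝ) ^ A ≤ κ * ‖P n c c M‖ →
      ∀ r : ℝ, 0 < r → r ≤ 1 →
      (∀ t ∈ ball c r, ∀ p ≤ M + 2, ∀ z, ¬ IsAttractingCycle (fun z => z ^ n + t) p z) →
      ‖P n c c J‖ * (κ * r) ≤ C * (M : ℝ) ^ A ∧
      ‖P n c c J‖ * (κ * r) ≤ C * (M : ℝ) ^ A *
        (‖orb n c c J - c‖ * (5 - Real.log ‖orb n c c J - c‖)))
    {c : ℂ} (hc : c ∈ multibrotSet n) {M : ℕ} (hM : 2 ≤ M) {κ : ℝ} (hκ0 : 0 < κ) (hκ1 : κ ≤ 1)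
    (hbig : (M : ℝ) ^ A ≤ κ * ‖P n c c M‖) {N : ℕ} (hN1 : 1 ≤ N) (hNM : N ≤ M)
    (hret : ∀ j, 1 ≤ j → j < N → κ ≤ ‖orb n c c j - c‖) :
    Near n (M + 2) c (64 * C * (M : ℝ) ^ (A + 1) / κ *
      (‖orb n c c N - c‖ * (5 - Real.log ‖orb n c c N - c‖))) := by
  have hM2 : (2 : ℝ) ≤ M := by exact_mod_cast hM
  have hM0 : (0 : ℝ) < M := by linarith
  have hMA : 0 < (M : ℝ) ^ A := Real.rpow_pos_of_pos hM0 A
  have hMA1 : 1 ≤ (M : ℝ) ^ A := Real.one_le_rpow (by linarith) hA.le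
  have hMA' : (M : ℝ) ^ (A + 1) = (M : ℝ) ^ A * M := by
    rw [Real.rpow_add hM0, Real.rpow_one]
  by_cases h0 : ∀ j < M, orb n c c j ≠ 0
  swap
  · push Not at h0
    obtain ⟨j, hj, h1⟩ := h0
    apply near_of_zero hn hj h1
    have h4 := rho4 hn hc N
    have h5 : Real.log ‖orb n c c N - c‖ ≤ 5 := by
      rcases (norm_nonneg (orb n c c N - c)).eq_or_lt with h | h
      · rw [← h, Real.log_zero]; norm_num
      · have := Real.log_le_sub_one_of_pos h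
        linarith
    have h6 : 0 ≤ 5 - Real.log ‖orb n c c N - c‖ := by linarith
    positivity
  have hρ := rho0 h0 hN1 hNM
  have hk2 := kk_ge hn hc h0 hN1 hNM
  set ρ := ‖orb n c c N - c‖ with hρd
  have hkρ : Real.log ρ = -kk n c N := by rw [hρd]; unfold kk; ring
  have hlρ : 3 ≤ 5 - Real.log ρ := by rw [hkρ]; linarith
  obtain ⟨s, hs⟩ : ∃ s, s = 64 * C * (M : ℝ) ^ (A + 1) / κ * (ρ * (5 - Real.log ρ)) := ⟨_, rfl⟩
  rw [← hs]
  have hs0 : 0 < s := by rw [hs]; positivity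
  have hsκ : s * κ = 64 * C * ((M : ℝ) ^ A * M) * (ρ * (5 - Real.log ρ)) := by
    rw [hs, hMA']; field_simp
  rcases le_or_gt 2 s with h2 | h2
  · exact near_zero hn hc (by omega) h2
  -- the return is deeper than all earlier ones
  have hρκ : ρ ≤ κ := by
    by_contra hlt
    push Not at hlt
    have h3 : κ * 3 ≤ ρ * (5 - Real.log ρ) := by
      calc κ * 3 ≤ ρ * 3 := by linarith
        _ ≤ ρ * (5 - Real.log ρ) := by gcongr
    have h4 : 64 * 1 * (1 * 1) * (κ * 3) ≤ 64 * C * ((M : ℝ) ^ A * M) * (ρ * (5 - Real.log ρ)) := by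
      gcongr
      linarith
    have h5 : s * κ < 2 * κ := by gcongr
    linarith
  by_contra hcon
  have hnn := not_near (r := s / 2) (by linarith : s / 2 ≤ s) hcon
  have hcb : c ∈ ball c (s / 2) := mem_ball_self (by positivity)
  obtain ⟨z, hz⟩ := trap_b hn (by omega : 1 ≤ M) h0 hN1 hNM (by
    intro i hi1 hiN
    obtain ⟨-, h3⟩ := hcore c hc M hM i hi1 (hiN.trans hNM) κ hκ0 hκ1
      (fun j hj1 hj2 => hret j hj1 (by omega)) hbig (s / 2) (by positivity) (by linarith) hnn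
    have hρi := rho0 h0 hi1 (hiN.trans hNM)
    have hPi : 0 < ‖P n c c i‖ := norm_pos_iff.mpr (P_ne hn h0 (hiN.trans hNM))
    have hρNi : ρ ≤ ‖orb n c c i - c‖ := by
      rcases hiN.lt_or_eq with h | h
      · exact hρκ.trans (hret i hi1 h)
      · rw [h]
    have hki := kk_ge hn hc h0 hi1 (hiN.trans hNM)
    have hlog : Real.log ρ ≤ Real.log ‖orb n c c i - c‖ := Real.log_le_log hρ hρNi
    have hli : 0 < 5 - Real.log ‖orb n c c i - c‖ := by
      have : Real.log ‖orb n c c i - c‖ = -kk n c i := by unfold kk; ring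
      rw [this]; linarith
    set x := ‖orb n c c i - c‖ with hx
    have h4 : ‖P n c c i‖ * (32 * M * ρ) ≤ x := by
      have e1 : ‖P n c c i‖ * (κ * (s / 2)) =
          ‖P n c c i‖ * (32 * M * ρ) * (C * (M : ℝ) ^ A * (5 - Real.log ρ)) := by
        calc ‖P n c c i‖ * (κ * (s / 2)) = ‖P n c c i‖ * (s * κ) / 2 := by ring
          _ = _ := by rw [hsκ]; ring
      rw [e1] at h3
      have h5 : C * (M : ℝ) ^ A * (x * (5 - Real.log x)) ≤
          x * (C * (M : ℝ) ^ A * (5 - Real.log ρ)) := by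
        have : C * (M : ℝ) ^ A * (x * (5 - Real.log x)) =
          x * (C * (M : ℝ) ^ A * (5 - Real.log x)) := by ring
        rw [this]
        gcongr
      have h6 := h3.trans h5
      exact le_of_mul_le_mul_right h6 (by positivity)
    have h7 := Real.log_le_log (by positivity) h4
    rw [Real.log_mul hPi.ne' (by positivity), Real.log_mul (by positivity) hρ.ne',
      Real.log_mul (by norm_num) hM0.ne'] at h7
    have h8 : Real.log x = -kk n c i := by rw [hx]; unfold kk; ring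
    rw [h8, hkρ] at h7
    have h9 : 1 + Real.log 8 ≤ Real.log 32 := by
      rw [← Real.log_exp 1, ← Real.log_mul (by positivity) (by norm_num)]
      apply Real.log_le_log (by positivity)
      have := Real.exp_one_lt_d9
      linarith
    unfold aa
    linarith)
  exact hnn c hcb N (by omega) z hz

/-- Close returns. -/
theorem ret {n : ℕ} (hn : 2 ≤ n) {A C : ℝ} (hA : 0 < A) (hC : 1 ≤ C)
    (hcore : ∀ c ∈ multibrotSet n,
      ∀ M : ℕ, 2 ≤ M → ∀ J, 1 ≤ J → J ≤ M → ∀ κ : ℝ, 0 < κ → κ ≤ 1 →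
      (∀ j, 1 ≤ j → j < J → κ ≤ ‖orb n c c j - c‖) → (M : ℝ) ^ A ≤ κ * ‖P n c c M‖ →
      ∀ r : ℝ, 0 < r → r ≤ 1 →
      (∀ t ∈ ball c r, ∀ p ≤ M + 2, ∀ z, ¬ IsAttractingCycle (fun z => z ^ n + t) p z) →
      ‖P n c c J‖ * (κ * r) ≤ C * (M : ℝ) ^ A ∧
      ‖P n c c J‖ * (κ * r) ≤ C * (M : ℝ) ^ A *
        (‖orb n c c J - c‖ * (5 - Real.log ‖orb n c c J - c‖))) :
    ∃ C2 : ℝ, 1 ≤ C2 ∧ ∀ c ∈ multibrotSet n, ∀ N : ℕ, 2 ≤ N → ∀ κ : ℝ, 0 < κ → κ ≤ 1 →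
    (∀ j, 1 ≤ j → j < N → κ ≤ ‖orb n c c j - c‖) →
    Near n (N + 2) c (C2 * (N : ℝ) ^ (A + 1) / κ *
      ‖orb n c c N - c‖ ^ (1 - 1 / (n : ℝ))) := by
  have hn1 : (1 : ℝ) ≤ n := by exact_mod_cast (by omega : 1 ≤ n)
  have hn0 : (0 : ℝ) < n := by linarith
  obtain ⟨K, hK⟩ : ∃ K, K = Real.exp (1 + Real.log 8 + Real.log n) := ⟨_, rfl⟩
  have hK1 : 1 ≤ K := by
    rw [hK]
    apply Real.one_le_exp
    have := Real.log_nonneg hn1
    have := Real.log_nonneg (by norm_num : (1 : ℝ) ≤ 8)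
    linarith
  refine ⟨4 * C * K * (2 * n) ^ 1, by nlinarith [mul_le_mul hC hK1 (by norm_num) (by linarith)], ?_⟩
  intro c hc N hN κ hκ0 hκ1 hret
  have hN2 : (2 : ℝ) ≤ N := by exact_mod_cast hN
  have hN0 : (0 : ℝ) < N := by linarith
  have hNA : 0 < (N : ℝ) ^ A := Real.rpow_pos_of_pos hN0 A
  have hNA1 : 1 ≤ (N : ℝ) ^ A := Real.one_le_rpow (by linarith) hA.le
  have hNA' : (N : ℝ) ^ (A + 1) = (N : ℝ) ^ A * N := by
    rw [Real.rpow_add hN0, Real.rpow_one]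
  have hpw : 0 ≤ ‖orb n c c N - c‖ ^ (1 - 1 / (n : ℝ)) := Real.rpow_nonneg (norm_nonneg _) _
  by_cases h0 : ∀ j < N, orb n c c j ≠ 0
  swap
  · push Not at h0
    obtain ⟨j, hj, h1⟩ := h0
    apply near_of_zero hn hj h1
    positivity
  have hρ := rho0 h0 (by omega : 1 ≤ N) le_rfl
  set ρ := ‖orb n c c N - c‖ with hρd
  have hkρ : Real.log ρ = -kk n c N := by rw [hρd]; unfold kk; ring
  obtain ⟨θ, hθ⟩ : ∃ θ, θ = 1 - 1 / (n : ℝ) := ⟨_, rfl⟩
  rw [← hθ] at hpw ⊢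
  have hθ0 : 0 < ρ ^ θ := Real.rpow_pos_of_pos hρ θ
  -- a lower bound for the derivatives implies the claim
  have hall : ∀ i, i ≤ N → 1 ≤ K * (N : ℝ) * ρ ^ θ * ‖P n c c i‖ →
      Near n (N + 2) c (4 * C * K * (2 * n) ^ 1 * (N : ℝ) ^ (A + 1) / κ * ρ ^ θ) := by
    intro i hiN hi
    have hPi : 0 < ‖P n c c i‖ := norm_pos_iff.mpr (P_ne hn h0 hiN)
    rcases Nat.lt_or_ge i 2 with hi2 | hi2
    · apply near_zero hn hc (by omega)
      have hPle : ‖P n c c i‖ ≤ (2 * n) ^ 1 := by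
        refine (P_le hn hc i).trans ?_
        exact pow_le_pow_right₀ (by linarith) (by omega)
      have h1 : 1 ≤ K * (N : ℝ) * ρ ^ θ * (2 * n) ^ 1 := by
        refine hi.trans ?_
        gcongr
      have e : 4 * C * K * (2 * n) ^ 1 * (N : ℝ) ^ (A + 1) / κ * ρ ^ θ =
          (4 * C * (N : ℝ) ^ A / κ) * (K * (N : ℝ) * ρ ^ θ * (2 * n) ^ 1) := by
        rw [hNA']; ring
      rw [e]
      have h2 : 4 ≤ 4 * C * (N : ℝ) ^ A / κ := by
        rw [le_div_iff₀ hκ0]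
        calc 4 * κ ≤ 4 * 1 := by linarith
          _ ≤ 4 * (C * (N : ℝ) ^ A) := by
            have := mul_le_mul hC hNA1 (by norm_num) (by linarith)
            linarith
          _ = 4 * C * (N : ℝ) ^ A := by ring
      nlinarith
    · have hg := grow hn hA hC hcore hc hi2 hκ0 hκ1 (fun j hj1 hj2 => hret j hj1 (by omega))
      refine hg.mono (by omega) ?_
      rw [div_le_iff₀ (by positivity)]
      have hiA : (i : ℝ) ^ A ≤ (N : ℝ) ^ A :=
        Real.rpow_le_rpow (by positivity) (by exact_mod_cast hiN) hA.le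
      have e : 4 * C * K * (2 * n) ^ 1 * (N : ℝ) ^ (A + 1) / κ * ρ ^ θ * (κ * ‖P n c c i‖) =
          (2 * n) ^ 1 * (4 * C * (N : ℝ) ^ A * (K * (N : ℝ) * ρ ^ θ * ‖P n c c i‖)) := by
        rw [hNA']; field_simp
      rw [e]
      have h2n : (1 : ℝ) ≤ (2 * n) ^ 1 := by rw [pow_one]; linarith
      calc 4 * C * (i : ℝ) ^ A ≤ 4 * C * (N : ℝ) ^ A := by gcongr
        _ = 1 * (4 * C * (N : ℝ) ^ A * 1) := by ring
        _ ≤ _ := by gcongr
  by_cases hex : ∃ i, i ≤ N ∧ 1 ≤ K * (N : ℝ) * ρ ^ θ * ‖P n c c i‖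
  · obtain ⟨i, hi, h1⟩ := hex
    exact hall i hi h1
  push Not at hex
  rcases lt_or_ge κ ρ with hκρ | hκρ
  · -- the return is not deep
    apply near_zero hn hc (by omega)
    have h4 : ρ ≤ 4 := rho4 hn hc N
    have h5 : ρ ≤ 4 * ρ ^ θ := by
      have h6 : ρ = ρ ^ (1 / (n : ℝ)) * ρ ^ θ := by
        rw [← Real.rpow_add hρ, hθ, add_sub_cancel, Real.rpow_one]
      have h7 : ρ ^ (1 / (n : ℝ)) ≤ 4 := by
        calc ρ ^ (1 / (n : ℝ)) ≤ 4 ^ (1 / (n : ℝ)) := Real.rpow_le_rpow hρ.le h4 (by positivity)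
          _ ≤ 4 ^ (1 : ℝ) := Real.rpow_le_rpow_of_exponent_le (by norm_num)
              (by rw [div_le_one hn0]; exact hn1)
          _ = 4 := Real.rpow_one 4
      calc ρ = ρ ^ (1 / (n : ℝ)) * ρ ^ θ := h6
        _ ≤ 4 * ρ ^ θ := by gcongr
    have h8 : κ ≤ 4 * ρ ^ θ := by linarith
    have e : 4 * C * K * (2 * n) ^ 1 * (N : ℝ) ^ (A + 1) / κ * ρ ^ θ =
        (C * K * ((N : ℝ) ^ A * N) * (2 * n)) * (4 * ρ ^ θ / κ) := by
      rw [hNA', pow_one]; ring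
    rw [e]
    have h9 : 1 ≤ 4 * ρ ^ θ / κ := by rw [le_div_iff₀ hκ0]; linarith
    have h10 : 1 * 1 * (1 * 2) * (2 * 1) ≤ C * K * ((N : ℝ) ^ A * N) * (2 * n) := by gcongr
    nlinarith
  have hlK : Real.log K = 1 + Real.log 8 + Real.log n := by rw [hK, Real.log_exp]
  have hk0 : 0 ≤ kk n c N := by
    have := Real.log_nonpos hρ.le (hκρ.trans hκ1)
    linarith
  obtain ⟨z, hz⟩ := trap_b hn (by omega : 1 ≤ N) h0 (by omega : 1 ≤ N) le_rfl (by
    intro i hi1 hiN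
    obtain ⟨i', rfl⟩ : ∃ i', i = i' + 1 := ⟨i - 1, by omega⟩
    rw [bb_succ hn h0 (by omega : i' < N)]
    have hPi : 0 < ‖P n c c i'‖ := norm_pos_iff.mpr (P_ne hn h0 (by omega))
    have h1 := (hex i' (by omega)).le
    have h2 := Real.log_le_log (by positivity) h1
    rw [Real.log_one, Real.log_mul (by positivity) hPi.ne', Real.log_mul (by positivity) hθ0.ne',
      Real.log_mul (by positivity) hN0.ne', Real.log_rpow hρ, hlK, hkρ] at h2
    have h3 : kk n c (i' + 1) ≤ kk n c N := by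
      rcases hiN.lt_or_eq with h | h
      · have h4 := hκρ.trans (hret (i' + 1) hi1 h)
        have h5 := Real.log_le_log hρ h4
        have h6 : Real.log ‖orb n c c (i' + 1) - c‖ = -kk n c (i' + 1) := by unfold kk; ring
        rw [h6, hkρ] at h5
        linarith
      · rw [h]
    have h4 : kk n c (i' + 1) / n ≤ kk n c N / n := by gcongr
    have h5 : θ * kk n c N = kk n c N - kk n c N / n := by rw [hθ]; ring
    unfold aa
    have h6 : θ * -kk n c N = -(kk n c N - kk n c N / n) := by rw [← h5]; ring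
    rw [h6] at h2
    linarith)
  exact ⟨c, by simpa using by positivity, N, by omega, z, hz⟩

end Pool.Agent.Helper30.PG
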