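import Pool.Graph.R_pool_sql_team_seeded_707910d6.T2H09.LW.Cor2

/-!
# Growth and returns at the critical value, relative to the closest return
-/

set_option autoImplicit false
open Set Filter Topology Metric

namespace Pool.Agent.Helper30.PG

open Pool.Agent.W746.LD Pool.Agent.T2H09.DH Pool.Agent.T2H09.LU Pool.Agent.T2H09.LV
  Pool.Agent.T2H09.LW N62a1eb23

/-- The two inequalities for a disc of parameters without attracting cycles of small period. -/
theorem core {n : ℕ} (hn : 2 ≤ n) : ∃ A C : ℝ, 0 < A ∧ 1 ≤ C ∧ ∀ c ∈ multibrotSet n,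
    ∀ M : ℕ, 2 ≤ M → ∀ J, 1 ≤ J → J ≤ M → ∀ κ : ℝ, 0 < κ → κ ≤ 1 →
    (∀ j, 1 ≤ j → j < J → κ ≤ ‖orb n c c j - c‖) → (M : ℝ) ^ A ≤ κ * ‖P n c c M‖ →
    ∀ r : ℝ, 0 < r → r ≤ 1 →
    (∀ t ∈ ball c r, ∀ p ≤ M + 2, ∀ z, ¬ IsAttractingCycle (fun z => z ^ n + t) p z) →
    ‖P n c c J‖ * (κ * r) ≤ C * (M : ℝ) ^ A ∧
    ‖P n c c J‖ * (κ * r) ≤ C * (M : ℝ) ^ A *
      (‖orb n c c J - c‖ * (5 - Real.log ‖orb n c c J - c‖)) := by
  obtain ⟨E, hE1, hmassE⟩ := er_massV hn
  obtain ⟨A, hA0, hA⟩ := main_abs hn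
  refine ⟨A, E, hA0, hE1, ?_⟩
  intro c hc M hM J hJ1 hJM κ hκ0 hκ1 hret hbig r hr0 hr1 hatt
  have hE0 : 0 < E := by linarith
  have hM2 : (2 : ℝ) ≤ M := by exact_mod_cast hM
  have hM0 : (0 : ℝ) < M := by linarith
  have hno : ∀ t ∈ ball c r, ¬ Pool.Agent.H548R3.MB.Centre n (M + 2) t := by
    rintro t ht ⟨p, hp1, hp2, hp3⟩
    exact hatt t ht p hp2 0 (Pool.Agent.H548R3.MB.att_of_centre hn hp1 hp3)
  have hcb : c ∈ ball c r := mem_ball_self hr0
  have h0 : ∀ j < M, orb n c c j ≠ 0 := by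
    intro j hj h0
    apply hno c hcb
    refine ⟨j + 1, by omega, by omega, ?_⟩
    have := P_eq_orb hn j c
    rw [h0] at this
    exact this
  have hMA : 0 < (M : ℝ) ^ A := Real.rpow_pos_of_pos hM0 A
  have hMA1 : 1 ≤ (M : ℝ) ^ A := Real.one_le_rpow (by linarith) hA0.le
  have hPM0 : 0 < ‖P n c c M‖ := norm_pos_iff.mpr (P_ne hn h0 le_rfl)
  have hP1 : 1 ≤ ‖P n c c M‖ := by
    have h1 : κ * ‖P n c c M‖ ≤ ‖P n c c M‖ := mul_le_of_le_one_left hPM0.le hκ1
    linarith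
  have hκl : 0 ≤ -Real.log κ := by
    have := Real.log_nonpos hκ0.le hκ1
    linarith
  have hmass := hmassE c hc M r hr0 hr1 hno
  have hEr : 0 < E / r := by positivity
  have hdeep : ∀ j, 1 ≤ j → j < J → kk n c j ≤ -Real.log κ := by
    intro j hj1 hj2
    unfold kk
    have := Real.log_le_log hκ0 (hret j hj1 hj2)
    linarith
  have hma : -Real.log κ + A * Real.log M ≤ aa n c M := by
    have h1 := Real.log_le_log hMA hbig
    rw [Real.log_rpow hM0, Real.log_mul hκ0.ne' hPM0.ne'] at h1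
    unfold aa
    linarith
  have key := hA c hc M hM h0 hP1 (E / r) hEr hmass J (-Real.log κ) hJ1 hJM hκl hdeep hma
  have hPJ0 : 0 < ‖P n c c J‖ := norm_pos_iff.mpr (P_ne hn h0 hJM)
  have hl1 := log_ep1 hn hc h0 hJ1 hJM hEr
  have hl2 := log_ep2 hn hc h0 hJ1 hJM hEr
  have hρ := rho0 h0 hJ1 hJM
  have hkge := kk_ge hn hc h0 hJ1 hJM
  have h5 : 0 < 5 + kk n c J := by linarith
  have hlE : Real.log (E / r) = Real.log E - Real.log r := Real.log_div hE0.ne' hr0.ne'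
  constructor
  · have h1 : Real.log (‖P n c c J‖ * (κ * r)) ≤ Real.log (E * (M : ℝ) ^ A) := by
      rw [Real.log_mul hPJ0.ne' (by positivity), Real.log_mul hκ0.ne' hr0.ne',
        Real.log_mul hE0.ne' hMA.ne', Real.log_rpow hM0]
      unfold aa at hl1
      linarith
    exact (Real.log_le_log_iff (by positivity) (by positivity)).mp h1
  · have e : 5 - Real.log ‖orb n c c J - c‖ = 5 + kk n c J := by unfold kk; ring
    rw [e]
    have h1 : Real.log (‖P n c c J‖ * (κ * r)) ≤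
        Real.log (E * (M : ℝ) ^ A * (‖orb n c c J - c‖ * (5 + kk n c J))) := by
      rw [Real.log_mul hPJ0.ne' (by positivity), Real.log_mul hκ0.ne' hr0.ne',
        Real.log_mul (by positivity) (by positivity), Real.log_mul hE0.ne' hMA.ne',
        Real.log_rpow hM0, Real.log_mul hρ.ne' h5.ne']
      have e2 : Real.log ‖orb n c c J - c‖ = -kk n c J := by unfold kk; ring
      rw [e2]
      unfold aa at hl2
      linarith
    exact (Real.log_le_log_iff (by positivity) (by positivity)).mp h1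

end Pool.Agent.Helper30.PG
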