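import Pool.Agent.Helper30.PG.Cons

/-!
# Separation of orbits near the critical value, and the assembly
-/

set_option autoImplicit false
open Set Filter Topology Metric

namespace Pool.Agent.Helper30.PG

open Pool.Agent.W746.LD Pool.Agent.T2H09.DH Pool.Agent.T2H09.LU Pool.Agent.T2H09.LV
  Pool.Agent.T2H09.LW N62a1eb23

/-- Separation of orbits. -/
theorem sep {n : ℕ} (hn : 2 ≤ n) {A C : ℝ} (hA : 0 < A) (hC : 1 ≤ C)
    (hcore : ∀ c ∈ multibrotSet n,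
      ∀ M : ℕ, 2 ≤ M → ∀ J, 1 ≤ J → J ≤ M → ∀ κ : ℝ, 0 < κ → κ ≤ 1 →
      (∀ j, 1 ≤ j → j < J → κ ≤ ‖orb n c c j - c‖) → (M : ℝ) ^ A ≤ κ * ‖P n c c M‖ →
      ∀ r : ℝ, 0 < r → r ≤ 1 →
      (∀ t ∈ ball c r, ∀ p ≤ M + 2, ∀ z, ¬ IsAttractingCycle (fun z => z ^ n + t) p z) →
      ‖P n c c J‖ * (κ * r) ≤ C * (M : ℝ) ^ A ∧
      ‖P n c c J‖ * (κ * r) ≤ C * (M : ℝ) ^ A *
        (‖orb n c c J - c‖ * (5 - Real.log ‖orb n c c J - c‖)))
    {c : ℂ} (hc : c ∈ multibrotSet n) {N : ℕ} (hN : 2 ≤ N) {κ : ℝ} (hκ0 : 0 < κ) (hκ1 : κ ≤ 1)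
    (hret : ∀ j, 1 ≤ j → j < N → κ ≤ ‖orb n c c j - c‖) {y : ℂ} {i : ℕ} (hi : i < N)
    (hy : κ ≤ ‖orb n c y i - orb n c c i‖) :
    Near n (N + 2) c (24 * n * C * (N : ℝ) ^ (A + 1) / κ ^ 2 * ‖y - c‖) := by
  have hn2 : (2 : ℝ) ≤ n := by exact_mod_cast hn
  have hN2 : (2 : ℝ) ≤ N := by exact_mod_cast hN
  have hN0 : (0 : ℝ) < N := by linarith
  have hNA : 0 < (N : ℝ) ^ A := Real.rpow_pos_of_pos hN0 A
  have hNA1 : 1 ≤ (N : ℝ) ^ A := Real.one_le_rpow (by linarith) hA.le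
  have hNA' : (N : ℝ) ^ (A + 1) = (N : ℝ) ^ A * N := by
    rw [Real.rpow_add hN0, Real.rpow_one]
  by_cases h0 : ∀ j < N, orb n c c j ≠ 0
  swap
  · push Not at h0
    obtain ⟨j, hj, h1⟩ := h0
    exact near_of_zero hn hj h1 (by positivity)
  have hyc : 0 < ‖y - c‖ := by
    rw [norm_pos_iff, sub_ne_zero]
    rintro rfl
    rw [sub_self, norm_zero] at hy
    linarith
  obtain ⟨s, hs⟩ : ∃ s, s = 24 * n * C * (N : ℝ) ^ (A + 1) / κ ^ 2 * ‖y - c‖ := ⟨_, rfl⟩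
  rw [← hs]
  have hs0 : 0 < s := by rw [hs]; positivity
  have hsκ : s * κ ^ 2 = 24 * n * C * ((N : ℝ) ^ A * N) * ‖y - c‖ := by
    rw [hs, hNA']; field_simp
  rcases le_or_gt 2 s with h2 | h2
  · exact near_zero hn hc (by omega) h2
  by_contra hcon
  have hb : ∀ j ≤ N, ‖P n c c j‖ * (κ * s) ≤ 4 * n * C * (N : ℝ) ^ A := by
    intro j hj
    rcases Nat.lt_or_ge j 2 with hj2 | hj2
    · have h1 : ‖P n c c j‖ ≤ 2 * n := by
        refine (P_le hn hc j).trans ?_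
        calc (2 * (n : ℝ)) ^ j ≤ (2 * n) ^ 1 := pow_le_pow_right₀ (by linarith) (by omega)
          _ = 2 * n := pow_one _
      have h3 : κ * s ≤ 1 * 2 := by gcongr
      calc ‖P n c c j‖ * (κ * s) ≤ (2 * n) * (1 * 2) := by gcongr
        _ = 4 * n * 1 * 1 := by ring
        _ ≤ 4 * n * C * (N : ℝ) ^ A := by gcongr
    · have hg := grow hn hA hC hcore hc hj2 hκ0 hκ1 (fun l hl1 hl2 => hret l hl1 (by omega))
      have hPj : 0 < ‖P n c c j‖ := norm_pos_iff.mpr (P_ne hn h0 hj)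
      have h3 : s < 4 * C * (j : ℝ) ^ A / (κ * ‖P n c c j‖) := by
        by_contra hle
        push Not at hle
        exact hcon (hg.mono (by omega) hle)
      rw [lt_div_iff₀ (by positivity)] at h3
      have hjA : (j : ℝ) ^ A ≤ (N : ℝ) ^ A :=
        Real.rpow_le_rpow (by positivity) (by exact_mod_cast hj) hA.le
      calc ‖P n c c j‖ * (κ * s) = s * (κ * ‖P n c c j‖) := by ring
        _ ≤ 4 * C * (j : ℝ) ^ A := h3.le
        _ ≤ 4 * C * (N : ℝ) ^ A := by gcongr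
        _ = 4 * 1 * C * (N : ℝ) ^ A := by ring
        _ ≤ 4 * n * C * (N : ℝ) ^ A := by gcongr; linarith
  have he := Real.exp_one_lt_d9
  have he0 := Real.exp_pos 1
  obtain ⟨σ, hσ⟩ : ∃ σ, σ = -Real.log ‖y - c‖ := ⟨_, rfl⟩
  have hexp : ‖y - c‖ = Real.exp (-σ) := by rw [hσ, neg_neg, Real.exp_log hyc]
  have h3 := shadow_b hn (by omega : 1 ≤ N) h0 (by omega : N - 1 ≤ N) (σ := σ)
    (fun j hj1 hj2 => by
      have hPj : 0 < ‖P n c c j‖ := norm_pos_iff.mpr (P_ne hn h0 (by omega))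
      have hρj := rho0 h0 hj1 (by omega : j ≤ N)
      have h4 := hret j hj1 (by omega)
      have h5 := hb j (by omega)
      have h6 : ‖P n c c j‖ * (Real.exp 1 * (N * ‖y - c‖)) ≤ ‖orb n c c j - c‖ := by
        refine le_trans ?_ h4
        have h7 : ‖P n c c j‖ * (κ * s) * κ ≤ 4 * n * C * (N : ℝ) ^ A * κ := by gcongr
        have h8 : ‖P n c c j‖ * (κ * s) * κ =
            ‖P n c c j‖ * (N * ‖y - c‖) * (24 * n * C * (N : ℝ) ^ A) := by
          calc ‖P n c c j‖ * (κ * s) * κ = ‖P n c c j‖ * (s * κ ^ 2) := by ring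
            _ = _ := by rw [hsκ]; ring
        rw [h8] at h7
        have h9 : (6 * (‖P n c c j‖ * (N * ‖y - c‖))) * (4 * n * C * (N : ℝ) ^ A) ≤
            κ * (4 * n * C * (N : ℝ) ^ A) := by linarith
        have h10 := le_of_mul_le_mul_right h9 (by positivity)
        have h11 : 0 ≤ ‖P n c c j‖ * (N * ‖y - c‖) := by positivity
        calc ‖P n c c j‖ * (Real.exp 1 * (N * ‖y - c‖)) =
            Real.exp 1 * (‖P n c c j‖ * (N * ‖y - c‖)) := by ring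
          _ ≤ 6 * (‖P n c c j‖ * (N * ‖y - c‖)) := by gcongr; linarith
          _ ≤ κ := h10
      have h7 := Real.log_le_log (by positivity) h6
      rw [Real.log_mul hPj.ne' (by positivity), Real.log_mul he0.ne' (by positivity),
        Real.log_mul hN0.ne' hyc.ne', Real.log_exp] at h7
      have e : Real.log ‖orb n c c j - c‖ = -kk n c j := by unfold kk; ring
      rw [e] at h7
      unfold aa
      linarith) (x := y) hexp.le i (by omega)
  have hPi : 0 < ‖P n c c i‖ := norm_pos_iff.mpr (P_ne hn h0 hi.le)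
  have h4 : Real.exp (1 + aa n c i - σ) = Real.exp 1 * ‖P n c c i‖ * ‖y - c‖ := by
    rw [sub_eq_add_neg, Real.exp_add, Real.exp_add, ← hexp]
    unfold aa
    rw [Real.exp_log hPi]
  rw [h4] at h3
  have h5 := hb i hi.le
  have h6 := hy.trans h3
  have h7 : ‖P n c c i‖ * (κ * s) * κ ≤ 4 * n * C * (N : ℝ) ^ A * κ := by gcongr
  have h8 : ‖P n c c i‖ * (κ * s) * κ =
      ‖P n c c i‖ * (N * ‖y - c‖) * (24 * n * C * (N : ℝ) ^ A) := by
    calc ‖P n c c i‖ * (κ * s) * κ = ‖P n c c i‖ * (s * κ ^ 2) := by ring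
      _ = _ := by rw [hsκ]; ring
  rw [h8] at h7
  have h9 : (6 * (‖P n c c i‖ * (N * ‖y - c‖))) * (4 * n * C * (N : ℝ) ^ A) ≤
      κ * (4 * n * C * (N : ℝ) ^ A) := by linarith
  have h10 := le_of_mul_le_mul_right h9 (by positivity)
  have h11 : 0 < ‖P n c c i‖ * ‖y - c‖ := by positivity
  nlinarith

/-- All estimates. -/
theorem all {n : ℕ} (hn : 2 ≤ n) : ∃ A C : ℝ, 0 < A ∧ 1 ≤ C ∧ ∀ c ∈ multibrotSet n,
    (∀ N : ℕ, 2 ≤ N → ∀ κ : ℝ, 0 < κ → κ ≤ 1 → (∀ j, 1 ≤ j → j < N → κ ≤ ‖orb n c c j - c‖) →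
      Near n (N + 2) c (C * (N : ℝ) ^ A / (κ * ‖P n c c N‖)) ∧
      Near n (N + 2) c (C * (N : ℝ) ^ A / κ * ‖orb n c c N - c‖ ^ (1 - 1 / (n : ℝ))) ∧
      ∀ (y : ℂ) (i : ℕ), i < N → κ ≤ ‖orb n c y i - orb n c c i‖ →
        Near n (N + 2) c (C * (N : ℝ) ^ A / κ ^ 2 * ‖y - c‖)) ∧
    (∀ M : ℕ, 2 ≤ M → ∀ N, 1 ≤ N → N ≤ M → ∀ κ : ℝ, 0 < κ → κ ≤ 1 →
      (∀ j, 1 ≤ j → j < N → κ ≤ ‖orb n c c j - c‖) → (M : ℝ) ^ A ≤ κ * ‖P n c c M‖ →
      Near n (M + 2) c (C * (M : ℝ) ^ A / κ *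
        (‖orb n c c N - c‖ * (5 - Real.log ‖orb n c c N - c‖)))) := by
  obtain ⟨A, C, hA, hC, hcore⟩ := core hn
  obtain ⟨C2, hC2, hr⟩ := ret hn hA hC hcore
  have hn2 : (2 : ℝ) ≤ n := by exact_mod_cast hn
  refine ⟨A + 1, 64 * C + C2 + 24 * n * C, by linarith, by nlinarith, ?_⟩
  intro c hc
  have hnC : 0 ≤ 24 * n * C := by positivity
  refine ⟨?_, ?_⟩
  · intro N hN κ hκ0 hκ1 hret
    have hN2 : (2 : ℝ) ≤ N := by exact_mod_cast hN
    have hN0 : (0 : ℝ) < N := by linarith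
    have hNA : 0 < (N : ℝ) ^ A := Real.rpow_pos_of_pos hN0 A
    have hle : (N : ℝ) ^ A ≤ (N : ℝ) ^ (A + 1) :=
      Real.rpow_le_rpow_of_exponent_le (by linarith) (by linarith)
    refine ⟨?_, ?_, ?_⟩
    · refine (grow hn hA hC hcore hc hN hκ0 hκ1 hret).mono le_rfl ?_
      apply div_le_div_of_nonneg_right _ (by positivity)
      gcongr
      linarith
    · refine (hr c hc N hN κ hκ0 hκ1 hret).mono le_rfl ?_
      gcongr
      linarith
    · intro y i hi hy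
      refine (sep hn hA hC hcore hc hN hκ0 hκ1 hret hi hy).mono le_rfl ?_
      gcongr
      linarith
  · intro M hM N hN1 hNM κ hκ0 hκ1 hret hbig
    have hM2 : (2 : ℝ) ≤ M := by exact_mod_cast hM
    have hM0 : (0 : ℝ) < M := by linarith
    have hMA : 0 < (M : ℝ) ^ A := Real.rpow_pos_of_pos hM0 A
    have hle : (M : ℝ) ^ A ≤ (M : ℝ) ^ (A + 1) :=
      Real.rpow_le_rpow_of_exponent_le (by linarith) (by linarith)
    refine (late hn hA hC hcore hc hM hκ0 hκ1 (hle.trans hbig) hN1 hNM hret).mono le_rfl ?_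
    have h5 : 0 ≤ ‖orb n c c N - c‖ * (5 - Real.log ‖orb n c c N - c‖) := by
      apply mul_nonneg (norm_nonneg _)
      have h4 := rho4 hn hc N
      rcases (norm_nonneg (orb n c c N - c)).eq_or_lt with h | h
      · rw [← h, Real.log_zero]; norm_num
      · have := Real.log_le_sub_one_of_pos h
        linarith
    gcongr
    linarith

end Pool.Agent.Helper30.PG
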